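import Pool.Agent.Helper54.DI.StmtsA

namespace Pool.Agent.Helper54.DI

open Finset Filter Topology

/-- strict midpoint inequality near a point with nonvanishing second derivative -/
theorem GEOT_mid (f : ℝ → ℝ) (hf : ContDiffAt ℝ 3 f 0) (h2 : iteratedDeriv 2 f 0 ≠ 0) :
    ∃ r > 0, ∀ s t : ℝ, |s| < r → |t| < r → s ≠ t → f ((s + t) / 2) ≠ (f s + f t) / 2 := by
  have hev : ∀ᶠ y in 𝓝 (0 : ℝ), ContDiffAt ℝ 3 f y :=
    hf.eventually (by simp)
  have hc2 : ContinuousAt (iteratedDeriv 2 f) 0 := by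
    have h := (hf.iteratedFDeriv_right (m := 0) (i := 2) (by norm_num)).continuousAt
    have h' := (ContinuousMultilinearMap.apply ℝ (fun _ : Fin 2 => ℝ) ℝ
      (fun _ => 1)).continuous.continuousAt.comp h
    exact h'
  -- constant sign
  have key : ∀ g : ℝ → ℝ, (∀ᶠ y in 𝓝 (0 : ℝ), ContDiffAt ℝ 3 g y) →
      ContinuousAt (iteratedDeriv 2 g) 0 → 0 < iteratedDeriv 2 g 0 →
      ∃ r > 0, ∀ s t : ℝ, |s| < r → |t| < r → s ≠ t → g ((s + t) / 2) < (g s + g t) / 2 := by
    intro g hg hgc hpos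
    have h1 : ∀ᶠ y in 𝓝 (0 : ℝ), 0 < iteratedDeriv 2 g y := hgc.eventually (lt_mem_nhds hpos)
    obtain ⟨r, hr, hball⟩ := Metric.eventually_nhds_iff.1 (hg.and h1)
    have hI : ∀ x ∈ Set.Ioo (-r) r, ContDiffAt ℝ 3 g x ∧ 0 < iteratedDeriv 2 g x := by
      intro x hx
      exact hball (by rw [Real.dist_eq, sub_zero, abs_lt]; exact hx)
    have hsc : StrictConvexOn ℝ (Set.Ioo (-r) r) g := by
      apply strictConvexOn_of_deriv2_pos' (convex_Ioo _ _)
      · intro x hx
        exact (hI x hx).1.continuousAt.continuousWithinAt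
      · intro x hx
        have := (hI x hx).2
        rwa [iteratedDeriv_eq_iterate] at this
    refine ⟨r, hr, fun s t hs ht hst => ?_⟩
    have := hsc.2 (show s ∈ Set.Ioo (-r) r from abs_lt.1 hs)
      (show t ∈ Set.Ioo (-r) r from abs_lt.1 ht) hst (show (0 : ℝ) < 1 / 2 by norm_num)
      (show (0 : ℝ) < 1 / 2 by norm_num) (by norm_num)
    simp only [smul_eq_mul] at this
    calc g ((s + t) / 2) = g (1 / 2 * s + 1 / 2 * t) := by congr 1; ring
      _ < _ := this
      _ = _ := by ring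
  rcases lt_or_gt_of_ne h2 with h | h
  · have hev' : ∀ᶠ y in 𝓝 (0 : ℝ), ContDiffAt ℝ 3 (-f) y := hev.mono fun y hy => hy.neg
    have e2 : iteratedDeriv 2 (-f) = -iteratedDeriv 2 f := by
      funext x
      exact iteratedDeriv_neg 2 f x
    obtain ⟨r, hr, H⟩ := key (-f) hev' (by rw [e2]; exact hc2.neg) (by
      rw [e2, Pi.neg_apply]; linarith)
    refine ⟨r, hr, fun s t hs ht hst he => ?_⟩
    have := H s t hs ht hst
    simp only [Pi.neg_apply] at this
    linarith
  · obtain ⟨r, hr, H⟩ := key f hev hc2 h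
    exact ⟨r, hr, fun s t hs ht hst he => absurd he (H s t hs ht hst).ne⟩

theorem GEOT_inj {d k : ℕ} (φ : NM d k) : Function.Injective φ.I := by
  intro i j hij
  by_contra hne
  have h1 := φ.hM i
  have h2 := φ.hM j
  rw [hij, h2] at h1
  have := congrFun h1 i
  rw [Pi.single_apply, if_neg hne, Pi.single_apply, if_pos rfl] at this
  exact one_ne_zero this.symm

theorem st_GEOT (hDIR : ST_DIR) (hTRICK : ST_TRICK) (hNB : ST_NB) : ST_GEOT := by
  intro k d A T φ w J l F H ε hT hε hH0 hH1 hcone hl hF hFw hdep hid hna hTF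
  obtain ⟨hcont, hI, haff⟩ := hNB d k φ
  obtain ⟨δ, hδ, hball⟩ := Metric.eventually_nhds_iff.1 hTF
  set P0 := nev φ w with hP0
  set η := min ε δ with hη
  have hη0 : 0 < η := lt_min hε hδ
  -- the box
  have ha : ∀ i, ∃ q : ℚ, P0 i - η < q ∧ (q : ℝ) < P0 i := fun i => exists_rat_btwn (by linarith)
  have hb : ∀ i, ∃ q : ℚ, P0 i < q ∧ (q : ℝ) < P0 i + η := fun i => exists_rat_btwn (by linarith)
  choose a ha1 ha2 using ha
  choose b hb1 hb2 using hb
  have hbox : ∀ p, Bx a b p → ∀ i, |p i - P0 i| < η := by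
    intro p hp i
    rw [abs_lt]
    constructor
    · linarith [(hp i).1, ha1 i]
    · linarith [(hp i).2, hb2 i]
  have hboxball : ∀ p, Bx a b p → p ∈ Metric.ball P0 ε := by
    intro p hp
    rw [Metric.mem_ball, dist_pi_lt_iff hε]
    intro i
    rw [Real.dist_eq]
    exact lt_of_lt_of_le (hbox p hp i) (min_le_left _ _)
  have hboxw : ∀ z, Bx a b (nev φ z) → (nev φ z ∈ T ↔ F z = z) := by
    intro z hz
    apply hball
    rw [dist_pi_lt_iff hδ]
    intro j
    rw [Real.dist_eq]
    have := hbox _ hz (φ.I j)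
    rw [hI z j, hP0, hI w j] at this
    exact lt_of_lt_of_le this (min_le_right _ _)
  -- the open set of good parameters
  have hFF : ∀ x, F (F x) = F x := fun x => hdep _ _ fun j hj => hid x j hj
  have hU0 : ∀ᶠ x in 𝓝 w, ∀ i, (a i : ℝ) < nev φ (F x) i ∧ nev φ (F x) i < b i := by
    have hc : ContinuousAt (fun x => nev φ (F x)) w := by
      exact hcont.continuousAt.comp hF.continuousAt
    rw [eventually_all]
    intro i
    have hci : ContinuousAt (fun x => nev φ (F x) i) w := (continuousAt_pi.1 hc) i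
    have e : nev φ (F w) i = P0 i := by rw [hFw]
    have h1 : ∀ᶠ x in 𝓝 w, (a i : ℝ) < nev φ (F x) i :=
      hci.eventually (lt_mem_nhds (by show (a i : ℝ) < nev φ (F w) i; rw [e]; exact ha2 i))
    have h2 : ∀ᶠ x in 𝓝 w, nev φ (F x) i < b i :=
      hci.eventually (gt_mem_nhds (by show nev φ (F w) i < (b i : ℝ); rw [e]; exact hb1 i))
    exact h1.and h2
  obtain ⟨U, hUsub, hUo, hUw⟩ := mem_nhds_iff.1 hU0
  have hG : ContDiffAt ℝ 3 (fun x => F x l) w := contDiffAt_pi.1 hF l
  obtain ⟨y, u, hyU, hf, hf2⟩ := hDIR d (fun x => F x l) w hG hna U (hUo.mem_nhds hUw)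
  set g : ℝ → Fin d → ℝ := fun t i => (y i : ℝ) + t * u i with hg
  have hgc : Continuous g := by
    rw [hg]
    exact continuous_pi fun i => by fun_prop
  have hg0 : g 0 = fun i => (y i : ℝ) := by
    funext i; simp [hg]
  obtain ⟨r1, hr1, hmid⟩ := GEOT_mid (fun t : ℝ => F (g t) l) hf hf2
  have hUr : ∀ᶠ t in 𝓝 (0 : ℝ), g t ∈ U := by
    apply hgc.continuousAt.eventually
    rw [hg0]
    exact hUo.mem_nhds hyU
  obtain ⟨r2, hr2, hUr2⟩ := Metric.eventually_nhds_iff.1 hUr
  set r := min r1 r2 with hr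
  have hr0 : 0 < r := lt_min hr1 hr2
  set m := 3 ^ H.length with hm
  obtain ⟨ρ, hρ0, hρr⟩ := exists_rat_btwn (show (0 : ℝ) < r / 2 by linarith)
  have hρ0' : 0 < ρ := by exact_mod_cast hρ0
  have hinj := GEOT_inj φ
  set y0 : Fin k → ℚ := Function.extend φ.I y 0 with hy0
  set u0 : Fin k → ℚ := Function.extend φ.I u 0 with hu0
  have hy0' : ∀ j, y0 (φ.I j) = y j := fun j => hinj.extend_apply _ _ _
  have hu0' : ∀ j, u0 (φ.I j) = u j := fun j => hinj.extend_apply _ _ _
  -- good parameters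
  have hgood : ∀ t, |t| < r → (∀ i, (a i : ℝ) < nev φ (F (g t)) i ∧ nev φ (F (g t)) i < b i) := by
    intro t ht
    apply hUsub
    apply hUr2
    rw [Real.dist_eq, sub_zero]
    exact lt_of_lt_of_le ht (min_le_right _ _)
  have hgT : ∀ t, |t| < r → nev φ (F (g t)) ∈ T := by
    intro t ht
    have hb' : Bx a b (nev φ (F (g t))) := fun i => ⟨(hgood t ht i).1.le, (hgood t ht i).2.le⟩
    exact (hboxw _ hb').2 (hFF _)
  refine ⟨T, m, a, b, J.image φ.I, φ.I l, y0, u0, ρ, 1, fun t : ℝ => F (g t) l, hT, hρ0', one_pos,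
    hf, hf2, Or.inl ⟨?_, ?_⟩⟩
  · -- soundness
    rintro x yy ⟨hx, P, hTup, hPC, hPl⟩
    have hPr : P ∈ Set.range (nev φ) := by
      apply hTRICK k d A T φ H m a b hT le_rfl hH0 hH1 _ P hTup
      intro p q hp hq hpr hqr hs
      exact hcone p (hboxball p hp) q (hboxball q hq) hpr hqr hs
    obtain ⟨z, rfl⟩ := hPr
    obtain ⟨p, hp0, hpT, -⟩ := hTup
    have h0 := hpT 0
    rw [hp0] at h0
    have hFz : F z = z := (hboxw z h0.2).1 h0.1
    have hzJ : ∀ j ∈ J, z j = g x j := by
      intro j hj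
      have := hPC (φ.I j) (Finset.mem_image_of_mem _ hj)
      rw [hI z j, hy0', hu0'] at this
      exact this
    have : F z = F (g x) := hdep _ _ hzJ
    rw [← hPl, hI z l]
    show z l = F (g x) l
    rw [← this, hFz]
  · -- completeness
    intro x hx
    set s : ℝ := r / (2 * (m + 1)) with hs
    have hm1 : (0 : ℝ) < (m : ℝ) + 1 := by positivity
    have hs0 : 0 < s := by positivity
    have hlt : ∀ i : Fin (m + 1), |x + i * s| < r := by
      intro i
      have hi : (i : ℝ) ≤ m := by exact_mod_cast Nat.lt_succ_iff.1 i.2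
      have h1 : (i : ℝ) * s ≤ r / 2 := by
        rw [hs]
        calc (i : ℝ) * (r / (2 * (m + 1))) ≤ (m + 1) * (r / (2 * (m + 1))) := by
              apply mul_le_mul_of_nonneg_right (by linarith) (by positivity)
          _ = r / 2 := by field_simp
      have h0 : 0 ≤ (i : ℝ) * s := by positivity
      calc |x + i * s| ≤ |x| + |(i : ℝ) * s| := abs_add_le _ _
        _ = |x| + i * s := by rw [abs_of_nonneg h0]
        _ < r := by linarith
    refine ⟨hx, nev φ (F (g x)), ⟨fun i => nev φ (F (g (x + i * s))), ?_, ?_, ?_⟩, ?_, ?_⟩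
    · simp
    · intro i
      exact ⟨hgT _ (hlt i), fun l => ⟨(hgood _ (hlt i) l).1.le, (hgood _ (hlt i) l).2.le⟩⟩
    · intro i j hij
      set v1 := F (g (x + i * s)) with hv1
      set v2 := F (g (x + j * s)) with hv2
      set z : Fin d → ℝ := (1 / 2 : ℝ) • v1 + (1 / 2 : ℝ) • v2 with hz
      have hM : (fun l => (nev φ v1 l + nev φ v2 l) / 2) = nev φ z := by
        rw [hz, haff v1 v2 (1 / 2) (1 / 2) (by norm_num)]
        funext l
        simp only [Pi.add_apply, Pi.smul_apply, smul_eq_mul]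
        ring
      show (fun l => (nev φ v1 l + nev φ v2 l) / 2) ∉ T
      rw [hM]
      have hzb : Bx a b (nev φ z) := by
        intro l
        rw [← hM]
        have g1 := hgood _ (hlt i) l
        have g2 := hgood _ (hlt j) l
        rw [← hv1] at g1
        rw [← hv2] at g2
        constructor
        · show (a l : ℝ) ≤ (nev φ v1 l + nev φ v2 l) / 2
          linarith [g1.1, g2.1]
        · show (nev φ v1 l + nev φ v2 l) / 2 ≤ (b l : ℝ)
          linarith [g1.2, g2.2]
      rw [hboxw z hzb]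
      intro hFz
      have hzJ : ∀ j' ∈ J, z j' = g ((x + i * s + (x + j * s)) / 2) j' := by
        intro j' hj'
        simp only [hz, Pi.add_apply, Pi.smul_apply, smul_eq_mul]
        rw [hv1, hv2, hid _ j' hj', hid _ j' hj']
        simp only [hg]
        ring
      have e1 : F z = F (g ((x + i * s + (x + j * s)) / 2)) := hdep _ _ hzJ
      have e2 : F (g ((x + i * s + (x + j * s)) / 2)) l = (v1 l + v2 l) / 2 := by
        rw [← e1, hFz]
        simp only [hz, Pi.add_apply, Pi.smul_apply, smul_eq_mul]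
        ring
      refine hmid (x + i * s) (x + j * s) (lt_of_lt_of_le (hlt i) (min_le_left _ _))
        (lt_of_lt_of_le (hlt j) (min_le_left _ _)) ?_ e2
      intro he
      have hij' : (i : ℝ) < j := by exact_mod_cast hij
      have := mul_lt_mul_of_pos_right hij' hs0
      linarith
    · intro j hj
      obtain ⟨j', hj', rfl⟩ := Finset.mem_image.1 hj
      rw [hI, hid _ j' hj', hy0', hu0']
    · rw [hI]

end Pool.Agent.Helper54.DI
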